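import Pool.Agent.Helper71.SN.Goals

/-!
# Packet EXPA (MP_9b2a83_an)
-/

namespace Pool.Agent.Helper71.SN.PkEXPA

open Pool.Agent.Helper71.SN Pool.Agent.Helper39.Net

theorem card_filter_fin (n : ℕ) (p : ℕ → Prop) {i2 : DecidablePred p} :
    (Finset.univ.filter fun t : Fin n => p t.val).card = ((Finset.range n).filter p).card := by
  rw [← Finset.card_map Fin.valEmbedding]
  congr 1
  ext x
  simp only [Finset.mem_map, Finset.mem_filter, Finset.mem_univ, true_and, Finset.mem_range,
    Fin.valEmbedding_apply]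
  constructor
  · rintro ⟨a, ha, rfl⟩
    exact ⟨a.2, ha⟩
  · rintro ⟨h, hp⟩
    exact ⟨⟨x, h⟩, hp, rfl⟩

theorem card_filter_fin2 (n : ℕ) (p : ℕ → ℕ → Prop)
    {i1 : DecidablePred fun t : Fin n × Fin n => p t.1.val t.2.val}
    {i2 : DecidablePred fun q : ℕ × ℕ => p q.1 q.2} :
    (Finset.univ.filter fun t : Fin n × Fin n => p t.1.val t.2.val).card =
      ((Finset.range n ×ˢ Finset.range n).filter fun q => p q.1 q.2).card := by
  rw [← Finset.card_map (Function.Embedding.prodMap (Fin.valEmbedding (n := n))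
    (Fin.valEmbedding (n := n)))]
  congr 1
  ext ⟨x, y⟩
  simp only [Finset.mem_map, Finset.mem_filter, Finset.mem_univ, true_and, Finset.mem_product,
    Finset.mem_range, Function.Embedding.coe_prodMap, Prod.map, Fin.valEmbedding_apply,
    Prod.mk.injEq, Prod.exists]
  constructor
  · rintro ⟨a, c, ha, rfl, rfl⟩
    exact ⟨⟨a.2, c.2⟩, ha⟩
  · rintro ⟨⟨h1, h2⟩, hp⟩
    exact ⟨⟨x, h1⟩, ⟨y, h2⟩, hp, rfl, rfl⟩

theorem sigma_le {d L : ℕ} {σ : Fin d → ℕ} (hσ : ∑ c, σ c = L) (c : Fin d) : σ c ≤ L := by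
  rw [← hσ]
  exact Finset.single_le_sum (f := σ) (fun _ _ => Nat.zero_le _) (Finset.mem_univ c)

theorem cell_card (h2 : G_CNT2) {d b L : ℕ} (hb : 1 ≤ b) {σ : Fin d → ℕ} (hσ : ∑ c, σ c = L)
    (s : Fin d → Fin (b ^ (L + 1)))
    {i1 : DecidablePred fun z : Fin d → Fin (b ^ (L + 1)) =>
      ∀ c, σ c ≤ agr b (L + 1) (s c) (z c)} :
    (Finset.univ.filter fun z : Fin d → Fin (b ^ (L + 1)) =>
      ∀ c, σ c ≤ agr b (L + 1) (s c) (z c)).card = b ^ ((L + 1) * d - L) := by
  classical
  have h : (Finset.univ.filter fun z : Fin d → Fin (b ^ (L + 1)) =>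
      ∀ c, σ c ≤ agr b (L + 1) (s c) (z c)) =
      Fintype.piFinset fun c => Finset.univ.filter fun t : Fin (b ^ (L + 1)) =>
        σ c ≤ agr b (L + 1) (s c) t := by
    ext z
    simp [Fintype.mem_piFinset]
  rw [h, Fintype.card_piFinset]
  have h3 : ∀ c, (Finset.univ.filter fun t : Fin (b ^ (L + 1)) =>
        σ c ≤ agr b (L + 1) (s c) t).card = b ^ (L + 1 - σ c) := by
    intro c
    refine (card_filter_fin (b ^ (L + 1)) (fun t => σ c ≤ agr b (L + 1) (s c) t)).trans ?_
    exact h2 b (L + 1) (σ c) (s c) hb ((sigma_le hσ c).trans (Nat.le_succ L)) (s c).2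
  rw [Finset.prod_congr rfl fun c _ => h3 c, Finset.prod_pow_eq_pow_sum]
  congr 1
  have h4 : ∑ c : Fin d, (L + 1 - σ c) + ∑ c, σ c = (L + 1) * d := by
    rw [← Finset.sum_add_distrib]
    rw [Finset.sum_congr rfl fun c _ => Nat.sub_add_cancel ((sigma_le hσ c).trans (Nat.le_succ L))]
    simp [mul_comm]
  omega

theorem pairs_card (h1 : G_CNT1) {d b L : ℕ} (hb : 1 ≤ b) {σ : Fin d → ℕ} (hσ : ∑ c, σ c = L)
    {i1 : DecidablePred fun q : (Fin d → Fin (b ^ (L + 1))) × (Fin d → Fin (b ^ (L + 1))) =>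
      ∀ c, (q.1 c).val < (q.2 c).val ∧ agr b (L + 1) (q.1 c) (q.2 c) = σ c} :
    2 ^ d * b ^ L * (Finset.univ.filter
      fun q : (Fin d → Fin (b ^ (L + 1))) × (Fin d → Fin (b ^ (L + 1))) =>
        ∀ c, (q.1 c).val < (q.2 c).val ∧ agr b (L + 1) (q.1 c) (q.2 c) = σ c).card =
      (b ^ (2 * L + 1) * (b - 1)) ^ d := by
  classical
  have h : (Finset.univ.filter
      fun q : (Fin d → Fin (b ^ (L + 1))) × (Fin d → Fin (b ^ (L + 1))) =>
        ∀ c, (q.1 c).val < (q.2 c).val ∧ agr b (L + 1) (q.1 c) (q.2 c) = σ c).card =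
      (Fintype.piFinset fun c => Finset.univ.filter
        fun t : Fin (b ^ (L + 1)) × Fin (b ^ (L + 1)) =>
        t.1.val < t.2.val ∧ agr b (L + 1) t.1 t.2 = σ c).card := by
    refine Finset.card_bij (fun q _ => fun c => (q.1 c, q.2 c)) ?_ ?_ ?_
    · intro q hq
      simp only [Finset.mem_filter, Finset.mem_univ, true_and] at hq
      simpa [Fintype.mem_piFinset] using hq
    · intro q _ q' _ he
      have := fun c => congrFun he c
      simp only [Prod.mk.injEq] at this
      exact Prod.ext (funext fun c => (this c).1) (funext fun c => (this c).2)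
    · intro g hg
      refine ⟨(fun c => (g c).1, fun c => (g c).2), ?_, rfl⟩
      simp only [Fintype.mem_piFinset, Finset.mem_filter, Finset.mem_univ, true_and] at hg
      simpa using hg
  rw [h, Fintype.card_piFinset]
  have h3 : ∀ c, 2 * b ^ σ c * (Finset.univ.filter
        fun t : Fin (b ^ (L + 1)) × Fin (b ^ (L + 1)) =>
        t.1.val < t.2.val ∧ agr b (L + 1) t.1 t.2 = σ c).card = b ^ (2 * L + 1) * (b - 1) := by
    intro c
    rw [card_filter_fin2 (b ^ (L + 1)) (fun t t' => t < t' ∧ agr b (L + 1) t t' = σ c)]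
    exact h1 b L (σ c) hb (sigma_le hσ c)
  have h4 : ∏ c : Fin d, (2 * b ^ σ c * (Finset.univ.filter
        fun t : Fin (b ^ (L + 1)) × Fin (b ^ (L + 1)) =>
        t.1.val < t.2.val ∧ agr b (L + 1) t.1 t.2 = σ c).card) =
        (b ^ (2 * L + 1) * (b - 1)) ^ d := by
    rw [Finset.prod_congr rfl fun c _ => h3 c]
    simp
  rw [← h4, Finset.prod_mul_distrib, Finset.prod_mul_distrib, Finset.prod_pow_eq_pow_sum, hσ]
  simp

/-- The maps with prescribed values at two indices and the others out of a set. -/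
theorem fiber_card {N : ℕ} {S : Type} [Fintype S] [DecidableEq S] (i j : Fin N) (hij : i ≠ j)
    (s s' : S) (C : Finset S) :
    (Finset.univ.filter fun F : Fin N → S => (F i = s ∧ F j = s') ∧
      ∀ k, k ≠ i → k ≠ j → F k ∉ C).card = (Fintype.card S - C.card) ^ (N - 2) := by
  classical
  have h : (Finset.univ.filter fun F : Fin N → S => (F i = s ∧ F j = s') ∧
      ∀ k, k ≠ i → k ≠ j → F k ∉ C) =
      Fintype.piFinset fun k => if k = i then {s} else if k = j then {s'} else Cᶜ := by
    ext F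
    simp only [Finset.mem_filter, Finset.mem_univ, true_and, Fintype.mem_piFinset]
    constructor
    · rintro ⟨⟨a1, a2⟩, a3⟩ k
      by_cases e1 : k = i
      · subst e1
        simp [a1]
      · by_cases e2 : k = j
        · subst e2
          simp [e1, a2]
        · simp [e1, e2, a3 k e1 e2]
    · intro hF
      refine ⟨⟨?_, ?_⟩, ?_⟩
      · simpa using hF i
      · simpa [hij.symm] using hF j
      · intro k e1 e2
        simpa [e1, e2] using hF k
  rw [h, Fintype.card_piFinset]
  have h2 : ∀ k : Fin N, (if k = i then ({s} : Finset S) else if k = j then {s'} else Cᶜ).card =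
      if k ∈ ({i, j} : Finset (Fin N)) then 1 else (Fintype.card S - C.card) := by
    intro k
    by_cases e1 : k = i
    · simp [e1]
    · by_cases e2 : k = j
      · simp [e2, hij.symm]
      · simp [e1, e2, Finset.card_compl]
  rw [Finset.prod_congr rfl fun k _ => h2 k, Finset.prod_ite]
  simp only [Finset.prod_const_one, one_mul, Finset.prod_const]
  congr 1
  rw [← Finset.compl_filter, Finset.card_compl, Fintype.card_fin]
  congr 1
  have : (Finset.univ.filter fun k : Fin N => k ∈ ({i, j} : Finset (Fin N))) = {i, j} := by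
    ext k
    simp
  rw [this, Finset.card_pair hij]

theorem thm : G_CNT1 → G_CNT2 → G_EXPA := by
  classical
  intro h1 h2 d b L hb σ hσ i j hij
  set A : ℕ := (b ^ ((L + 1) * d) - b ^ ((L + 1) * d - L)) ^ (b ^ L - 2) with hA
  set Pr := Finset.univ.filter
      fun q : (Fin d → Fin (b ^ (L + 1))) × (Fin d → Fin (b ^ (L + 1))) =>
        ∀ c, (q.1 c).val < (q.2 c).val ∧ agr b (L + 1) (q.1 c) (q.2 c) = σ c with hPr
  have key : ∀ (T : Finset (Maps d b L)), (∀ F, F ∈ T ↔
      ((∀ c, (F i c).val < (F j c).val ∧ agr b (L + 1) (F i c) (F j c) = σ c) ∧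
        ∀ k, k ≠ i → k ≠ j → ¬ ∀ c, σ c ≤ agr b (L + 1) (F i c) (F k c))) →
      T.card = Pr.card * A := by
    intro T hT
    rw [Finset.card_eq_sum_card_fiberwise (f := fun F : Maps d b L => (F i, F j)) (t := Pr)]
    · rw [Finset.sum_const_nat (m := A)]
      rintro ⟨s, s'⟩ hs
      simp only [hPr, Finset.mem_filter, Finset.mem_univ, true_and] at hs
      have e : (T.filter fun F => (F i, F j) = (s, s')) =
          Finset.univ.filter fun F : Maps d b L => (F i = s ∧ F j = s') ∧
            ∀ k, k ≠ i → k ≠ j → F k ∉ (Finset.univ.filter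
              fun z : Fin d → Fin (b ^ (L + 1)) => ∀ c, σ c ≤ agr b (L + 1) (s c) (z c)) := by
        ext F
        simp only [Finset.mem_filter, Finset.mem_univ, true_and, hT, Prod.mk.injEq]
        constructor
        · rintro ⟨⟨_, a2⟩, a3, a4⟩
          refine ⟨⟨a3, a4⟩, ?_⟩
          rw [← a3]
          exact a2
        · rintro ⟨⟨a3, a4⟩, a5⟩
          refine ⟨⟨?_, ?_⟩, a3, a4⟩
          · rw [a3, a4]
            exact hs
          · rw [a3]
            exact a5
      rw [e, fiber_card i j hij, cell_card h2 hb hσ s]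
      rw [hA]
      congr 2
      rw [Fintype.card_fun, Fintype.card_fin, Fintype.card_fin, ← pow_mul]
    · intro F hF
      have := (hT F).1 hF
      simp only [hPr, Finset.coe_filter, Finset.mem_univ, true_and, Set.mem_ofPred_eq]
      exact this.1
  rw [key _ (fun F => by simp only [Finset.mem_filter, Finset.mem_univ, true_and])]
  rw [← mul_assoc, hPr, pairs_card h1 hb hσ]

end Pool.Agent.Helper71.SN.PkEXPA
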